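import Pool.Agent.helper1.GR.CDefs
import Pool.Agent.helper1.CD.All
import Pool.Agent.helper67.RG.Real
import Pool.Agent.helper16.GK.AllC
import Pool.Agent.helper44.AX.CC
import Pool.Agent.helper44.AX.FIX
import Pool.Agent.helper44.AX.ROT
import Pool.Agent.helper44.AX.YVP
import Pool.Agent.helper14.AX.SIM
import Pool.Agent.helper64.AX.AllR
import Pool.Agent.helper64.AX.LWC
import Pool.Agent.helper79.AX.NULrow
import Pool.Agent.helper46.AX.MEA
import Pool.Agent.helper46.AX.CNV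
import Pool.Agent.helper21.AX.CLO
import Pool.Agent.helper61.AX.TIN

/-!
# The congruence criterion over the absolute Galois group of a number field (MP_2e0e07_nt)
-/

set_option autoImplicit false

namespace Pool.Agent.GR

open Matrix Polynomial Pool.Agent.GO Pool.Agent.AR Pool.Agent.RG Pool.Agent.DS
  Pool.Agent.AX MeasureTheory NumberField Pool.Agent.GK Pool.Agent.CD

/-- the second half of the proof of row CNV of project AX -/
theorem cnv2 {Γ Place E F : Type} [Group Γ] [TopologicalSpace Γ] [IsTopologicalGroup Γ] [CompactSpace Γ]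
    [Field E] [NormedField F] (frob : Place → Set Γ) {r : ℕ} {n : Fin r → ℕ}
    (P : Fin r → Place → ℤ[X]) (Q : Place → E[X]) (ι : E →+* F) (p : ℕ) [Fact p.Prime]
    (V : (i : Fin r) → Γ →* Matrix (Fin (n i)) (Fin (n i)) ℤ_[p])
    (ρ : Γ →* Matrix (Fin 2) (Fin 2) F) (hV : ∀ i, Continuous (V i)) (hρ : Continuous ρ)
    (T1 T2 : Set Place)
    (hc1 : ∀ v ∉ T1, ∀ s ∈ frob v, ∀ i, (V i s).charpoly = (P i v).map (Int.castRingHom ℤ_[p]))
    (hc2 : ∀ v ∉ T2, ∀ s ∈ frob v, (ρ s).charpoly = (Q v).map ι)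
    (U : Subgroup Γ) (D : ℕ) (hU : IsOpen (U : Set Γ))
    (hprop : ∀ g : Fin (D + 1) → Γ, (∀ a, g a ∈ U) →
      (∀ a b i, (V i (g a)).charpoly = (V i (g b)).charpoly) →
      ∃ a b, a ≠ b ∧ tt ρ (g a) = tt ρ (g b)) :
    ∀ ε : ℝ, 0 < ε → ∃ M : ℕ, 0 < M ∧
      ∀ v : Fin (D + 1) → Place, (∀ a, v a ∈ {v | v ∉ T1 ∪ T2 ∧ ∃ s ∈ frob v, s ∈ U}) →
        (∀ a b i k, (M : ℤ) ∣ (P i (v a)).coeff k - (P i (v b)).coeff k) →
        ∃ a b, a ≠ b ∧ ‖ι (tv Q (v a)) - ι (tv Q (v b))‖ ≤ ε := by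
  have hUc : IsClosed (U : Set Γ) := Subgroup.isClosed_of_isOpen U hU
  intro ε hε
  by_contra hcon
  push Not at hcon
  let K : ℕ → Set (Fin (D + 1) → Γ) := fun k => {g | (∀ a, g a ∈ U) ∧
    (∀ a b i m, ‖(V i (g a)).charpoly.coeff m - (V i (g b)).charpoly.coeff m‖ ≤
      (p : ℝ) ^ (-(k : ℤ))) ∧ ∀ a b, a ≠ b → ε ≤ ‖tt ρ (g a) - tt ρ (g b)‖}
  have hp1 : (1 : ℝ) < p := by exact_mod_cast (Fact.out : p.Prime).one_lt
  have hp0 : (0 : ℝ) < p := by linarith
  have hcoef : ∀ a i m, Continuous fun g : Fin (D + 1) → Γ => (V i (g a)).charpoly.coeff m :=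
    fun a i m => (TAP_coeff m).comp ((hV i).comp (continuous_apply a))
  have htt : ∀ a, Continuous fun g : Fin (D + 1) → Γ => tt ρ (g a) :=
    fun a => (TAP_tt ρ hρ).comp (continuous_apply a)
  have hKc : ∀ k, IsClosed (K k) := by
    intro k
    have e : K k = (⋂ a, {g | g a ∈ U}) ∩
        ((⋂ a, ⋂ b, ⋂ i, ⋂ m, {g | ‖(V i (g a)).charpoly.coeff m -
          (V i (g b)).charpoly.coeff m‖ ≤ (p : ℝ) ^ (-(k : ℤ))}) ∩
        ⋂ a, ⋂ b, ⋂ (_ : a ≠ b), {g | ε ≤ ‖tt ρ (g a) - tt ρ (g b)‖}) := by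
      ext g
      simp only [K, Set.mem_inter_iff, Set.mem_iInter, Set.mem_ofPred_eq]
    rw [e]
    refine (isClosed_iInter fun a => hUc.preimage (continuous_apply a)).inter
      ((isClosed_iInter fun a => isClosed_iInter fun b => isClosed_iInter fun i =>
        isClosed_iInter fun m => ?_).inter
      (isClosed_iInter fun a => isClosed_iInter fun b => isClosed_iInter fun _ => ?_))
    · exact isClosed_le ((hcoef a i m).sub (hcoef b i m)).norm continuous_const
    · exact isClosed_le continuous_const ((htt a).sub (htt b)).norm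
  have hKm : ∀ k, K (k + 1) ⊆ K k := by
    rintro k g ⟨h1, h2, h3⟩
    refine ⟨h1, fun a b i m => (h2 a b i m).trans ?_, h3⟩
    exact zpow_le_zpow_right₀ hp1.le (by push_cast; omega)
  have hKn : ∀ k, (K k).Nonempty := by
    intro k
    obtain ⟨v, hv, hcong, hdist⟩ := hcon (p ^ k) (pow_pos (Fact.out : p.Prime).pos k)
    have hv' : ∀ a, ∃ s, s ∈ frob (v a) ∧ s ∈ U := fun a => by
      obtain ⟨_, s, hs, hsU⟩ := hv a
      exact ⟨s, hs, hsU⟩
    choose s hs hsU using hv'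
    have hvT : ∀ a, v a ∉ T1 ∪ T2 := fun a => (hv a).1
    refine ⟨s, hsU, ?_, ?_⟩
    · intro a b i m
      rw [hc1 (v a) (fun h => hvT a (Or.inl h)) (s a) (hs a) i,
        hc1 (v b) (fun h => hvT b (Or.inl h)) (s b) (hs b) i, Polynomial.coeff_map,
        Polynomial.coeff_map, ← map_sub, PadicInt.norm_le_pow_iff_mem_span_pow,
        Ideal.mem_span_singleton]
      obtain ⟨c, hc⟩ := hcong a b i m
      rw [hc]
      refine ⟨(c : ℤ_[p]), ?_⟩
      simp
    · intro a b hab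
      rw [CNV_tt Q ι ρ (v a) (s a) (hc2 (v a) (fun h => hvT a (Or.inr h)) (s a) (hs a)),
        CNV_tt Q ι ρ (v b) (s b) (hc2 (v b) (fun h => hvT b (Or.inr h)) (s b) (hs b))]
      exact (hdist a b hab).le
  obtain ⟨g, hg⟩ := IsCompact.nonempty_iInter_of_sequence_nonempty_isCompact_isClosed K hKm hKn
    (hKc 0).isCompact hKc
  rw [Set.mem_iInter] at hg
  have hch : ∀ a b i, (V i (g a)).charpoly = (V i (g b)).charpoly := by
    intro a b i
    ext m
    have h1 : ∀ k : ℕ, ‖(V i (g a)).charpoly.coeff m - (V i (g b)).charpoly.coeff m‖ ≤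
        ((p : ℝ)⁻¹) ^ k := by
      intro k
      have h2 := (hg k).2.1 a b i m
      rwa [_root_.zpow_neg, zpow_natCast, ← inv_pow] at h2
    have h2 := ge_of_tendsto' (tendsto_pow_atTop_nhds_zero_of_lt_one (inv_nonneg.2 hp0.le)
      (inv_lt_one_of_one_lt₀ hp1)) h1
    have h3 : ‖(V i (g a)).charpoly.coeff m - (V i (g b)).charpoly.coeff m‖ = 0 :=
      le_antisymm h2 (norm_nonneg _)
    rwa [norm_eq_zero, sub_eq_zero] at h3
  obtain ⟨a, b, hab, h⟩ := hprop g (hg 0).1 hch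
  have h1 := (hg 0).2.2 a b hab
  rw [h, sub_self, norm_zero] at h1
  linarith

theorem adKer_eq {Γ F : Type*} [Group Γ] [Field F] (ρ : Γ →* Matrix (Fin 2) (Fin 2) F) :
    Pool.Agent.RG.adKer ρ = Pool.Agent.HZ.adKer ρ := rfl

/-- the index and the fields -/
theorem index_fields {K : Type} [Field K] [NumberField K] {r : ℕ} {n : Fin r → ℕ}
    (V : (q : ℕ) → [Fact q.Prime] → (i : Fin r) → GalK K →* Matrix (Fin (n i)) (Fin (n i)) ℤ_[q])
    (hV : ∀ (q : ℕ) [Fact q.Prime] (i : Fin r), Continuous (V q i))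
    {F : Type} [NormedField F] (ρ : GalK K →* Matrix (Fin 2) (Fin 2) F) (hρ : Continuous ρ) :
    (kerAll V ⊔ Pool.Agent.HZ.adKer ρ).index = 0 ↔
      ¬ FiniteDimensional K (fieldAll V ⊓ fieldAd ρ : IntermediateField K (AlgebraicClosure K)) := by
  have c1 : IsClosed ((kerAll V : Subgroup (GalK K)) : Set (GalK K)) := by
    unfold kerAll
    rw [Subgroup.coe_iInf]
    refine isClosed_iInter fun q => ?_
    rw [Subgroup.coe_iInf]
    refine isClosed_iInter fun hq => ?_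
    unfold Pool.Agent.HZ.kerV
    rw [Subgroup.coe_iInf]
    exact isClosed_iInter fun i => isClosed_singleton.preimage (hV q i)
  have c2 : IsClosed (Pool.Agent.HZ.adKer ρ : Set (GalK K)) := by
    have e : (Pool.Agent.HZ.adKer ρ : Set (GalK K)) = {g | ρ g 0 1 = 0} ∩ ({g | ρ g 1 0 = 0} ∩
        {g | ρ g 0 0 = ρ g 1 1}) := by
      ext g
      constructor
      · rintro ⟨c, hc⟩
        refine ⟨?_, ?_, ?_⟩ <;> show _ = _ <;> rw [hc] <;> simp
      · rintro ⟨h1, h2, h3⟩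
        refine ⟨ρ g 0 0, ?_⟩
        ext i j
        fin_cases i <;> fin_cases j
        · simp
        · simpa using h1
        · simpa using h2
        · simpa using h3.symm
    have hc : ∀ i j, Continuous (fun g => ρ g i j) := fun i j => hρ.matrix_elem i j
    rw [e]
    exact (isClosed_eq (hc 0 1) continuous_const).inter ((isClosed_eq (hc 1 0)
      continuous_const).inter (isClosed_eq (hc 0 0) (hc 1 1)))
  have c3 : IsClosed ((kerAll V ⊔ Pool.Agent.HZ.adKer ρ : Subgroup (GalK K)) : Set (GalK K)) := by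
    rw [Subgroup.mul_normal]
    exact (c1.isCompact.mul c2.isCompact).isClosed
  have h1 := Pool.Agent.RG.Real.finiteIndex_iff (kerAll V ⊔ Pool.Agent.HZ.adKer ρ) c3
  rw [Pool.Agent.RG.Real.fixedField_sup] at h1
  have h2 : (kerAll V ⊔ Pool.Agent.HZ.adKer ρ).index = 0 ↔
      ¬ (kerAll V ⊔ Pool.Agent.HZ.adKer ρ).FiniteIndex :=
    ⟨fun h h' => h'.index_ne_zero h, fun h => by by_contra h'; exact h ⟨h'⟩⟩
  rw [h2, h1]
  rfl

theorem exists_goodK {K : Type} [Field K] [NumberField K] [MeasurableSpace (GalK K)] [BorelSpace (GalK K)]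
    (μ : Measure (GalK K)) [μ.IsHaarMeasure] {E : Type} [Field E] [NumberField E] {r : ℕ}
    {n : Fin r → ℕ} (P : Fin r → Pl K → E[X]) (Q : Pl K → E[X]) (w : Fin r → ℕ)
    (hO : IsWeightTwo K n P Q w ∨ ∃ (s : ℕ) (O : Set (Pl K)), IsGoodSetK K n P Q s w O) :
    ∃ (s : ℕ) (O : Set (Pl K)), IsGoodSet μ (frob K) n P Q (nv K) s w O := by
  rcases hO with h | ⟨s, O, h⟩
  · exact Pool.Agent.RG.Real.exists_good μ Pool.Agent.CH.CHEB_all P Q w (Or.inl h)
  · exact ⟨s, O, h.pos, h.wt, GPD_all K μ O h.dense, h.good, h.weil⟩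

theorem cong {K E : Type} [Field K] [NumberField K] [Field E] [NumberField E]
    {r : ℕ} {n : Fin r → ℕ} (P : Fin r → Pl K → ℤ[X]) (Q : Pl K → E[X]) (w : Fin r → ℕ)
    -- weight two, or a good set of places
    (hO : IsWeightTwo K n (fun i v => (P i v).map (Int.castRingHom E)) Q w ∨
      ∃ (s : ℕ) (O : Set (Pl K)), IsGoodSetK K n (fun i v => (P i v).map (Int.castRingHom E)) Q s w O)
    -- the representations over the rings `ℤ_q`, for all primes `q`
    (V : (q : ℕ) → [Fact q.Prime] → (i : Fin r) → GalK K →* Matrix (Fin (n i)) (Fin (n i)) ℤ_[q])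
    (hV : ∀ (q : ℕ) [Fact q.Prime] (i : Fin r), Continuous (V q i))
    (hch : ∀ (q : ℕ) [Fact q.Prime], ∃ T : Set (Pl K), T.Finite ∧
      ∀ v ∉ T, ∀ s ∈ frob K v, ∀ i, (V q i s).charpoly = (P i v).map (Int.castRingHom ℤ_[q]))
    -- one `p`-adic realisation
    (p : ℕ) [Fact p.Prime] (F Ω : Type) [NormedField F] [NormedAlgebra ℚ_[p] F]
    [FiniteDimensional ℚ_[p] F] [Field Ω] [IsAlgClosed Ω] [CharZero Ω] [Algebra F Ω]
    [TopologicalSpace Ω] [IsTopologicalRing Ω] [T2Space Ω] (ι : E →+* F)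
    (ρ : GalK K →* Matrix (Fin 2) (Fin 2) F) (hρ : Continuous ρ) (hint : ∀ g a b, ‖ρ g a b‖ ≤ 1)
    (hR : IsRealisation (frob K) (fun i v => (P i v).map (Int.castRingHom E)) Q
      ((algebraMap F Ω).comp ι)
      (fun i => mapHom ((algebraMap F Ω).comp ((algebraMap ℚ_[p] F).comp PadicInt.Coe.ringHom))
        (V p i))
      (bc (algebraMap F Ω) ρ)) :
    List.TFAE [
      DeterminedK K P Q ι,
      ¬ FiniteDimensional K (fieldAll V ⊓ fieldAd ρ : IntermediateField K (AlgebraicClosure K)),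
      Arises (fun i => mapHom
          ((algebraMap F Ω).comp ((algebraMap ℚ_[p] F).comp PadicInt.Coe.ringHom)) (V p i))
        (bc (algebraMap F Ω) ρ),
      ∀ (F' : Type) [Field F'] [IsAlgClosed F'] [CharZero F'] [TopologicalSpace F']
        [IsTopologicalRing F'] [T2Space F'] (ι' : E →+* F')
        (V' : (i : Fin r) → GalK K →* Matrix (Fin (n i)) (Fin (n i)) F')
        (ρ' : GalK K →* Matrix (Fin 2) (Fin 2) F'),
        IsRealisation (frob K) (fun i v => (P i v).map (Int.castRingHom E)) Q ι' V' ρ' →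
        Arises V' ρ'] := by
  letI : MeasurableSpace (GalK K) := borel (GalK K)
  haveI : BorelSpace (GalK K) := ⟨rfl⟩
  obtain ⟨s, O, hO'⟩ := exists_goodK (Measure.haar : Measure (GalK K)) _ Q w hO
  have hd : DenseIn (frob K) ⊤ Set.univ := (FRB_thm K).dense
  have hM := MAIN2 (FIX SIM LPC_all LWC) YV NUL MEA Pool.Agent.AX.CLO ROT CNV TIN
    (Measure.haar : Measure (GalK K)) (frob K) hd P Q (nv K) s w O hO' V hV hch p F Ω ι
    ρ hρ hint hR
  have hidx := index_fields V hV ρ hρ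
  have hρch : ∃ T : Set (Pl K), T.Finite ∧ ∀ v ∉ T, ∀ s ∈ frob K v,
      (ρ s).charpoly = (Q v).map ι := by
    obtain ⟨T, hT, hc⟩ := hR.comp
    refine ⟨T, hT, fun v hv s hs => ?_⟩
    have h3 := hc v hv s hs
    have h4 : (bc (algebraMap F Ω) ρ s).charpoly = ((ρ s).charpoly).map (algebraMap F Ω) :=
      Matrix.charpoly_map (ρ s) (algebraMap F Ω)
    rw [h4, ← Polynomial.map_map] at h3
    exact Polynomial.map_injective _ (algebraMap F Ω).injective h3
  have htt : ∀ g, tt (bc (algebraMap F Ω) ρ) g = algebraMap F Ω (tt ρ g) := by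
    intro g
    have h3 : bc (algebraMap F Ω) ρ g = (ρ g).map (algebraMap F Ω) := rfl
    unfold tt
    rw [h3, Matrix.trace_fin_two, Matrix.det_fin_two, Matrix.trace_fin_two, Matrix.det_fin_two]
    simp only [Matrix.map_apply, map_div₀, map_pow, map_add, map_sub, map_mul]
  tfae_have 1 → 3 := by
    rintro ⟨S, D, hS, h⟩
    have h1 : Determined (Measure.haar : Measure (GalK K)) (frob K) P Q ι :=
      ⟨S, D, PST CLO_all K _ S hS, h⟩
    exact (hM.out 0 2).1 h1
  tfae_have 3 → 1 := by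
    intro hA
    obtain ⟨S, Φ, hS, hΦ⟩ := (clause1 (Measure.haar : Measure (GalK K)) (frob K) _ Q (nv K) s w O hO'
      ((algebraMap F Ω).comp ι) _ _ hR).2 hA
    have hAd := clause0 (Measure.haar : Measure (GalK K)) (frob K) _ Q S Φ hS hΦ
      ((algebraMap F Ω).comp ι) _ _ hR
    have hAd' : AdArises (fun i => mapHom (padicTo p F Ω) (V p i)) (bc (algebraMap F Ω) ρ) := by
      obtain ⟨U, hU, a, b, hab⟩ := hAd
      exact ⟨U, a, b, hU, hab⟩
    obtain ⟨U, D, hU, hUD⟩ := ROT (GalK K) Ω r n _ _ hAd'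
    obtain ⟨T1, hT1, hc1⟩ := hch p
    obtain ⟨T2, hT2, hc2⟩ := hρch
    have hprop : ∀ g : Fin (D + 1) → GalK K, (∀ a, g a ∈ U) →
        (∀ a b i, (V p i (g a)).charpoly = (V p i (g b)).charpoly) →
        ∃ a b, a ≠ b ∧ tt ρ (g a) = tt ρ (g b) := by
      intro g hg hcc
      obtain ⟨a, b, hab, he⟩ := hUD g hg (by
        intro a b i
        have h3 : ∀ g, (mapHom (padicTo p F Ω) (V p i) g).charpoly =
            ((V p i g).charpoly).map (padicTo p F Ω) := fun g =>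
          Matrix.charpoly_map (V p i g) (padicTo p F Ω)
        rw [h3, h3, hcc a b i])
      refine ⟨a, b, hab, ?_⟩
      rw [htt, htt] at he
      exact (algebraMap F Ω).injective he
    have hcn := cnv2 (frob K) P Q ι p (V p) ρ (fun i => hV p i) hρ T1 T2 hc1 hc2 U D hU hprop
    obtain ⟨c, hc, hc'⟩ := FIP_all K (U : Set (GalK K)) (T1 ∪ T2) hU ⟨1, U.one_mem⟩ (hT1.union hT2)
    refine ⟨{v | (v ∉ T1 ∪ T2 ∧ ∃ s ∈ frob K v, s ∈ (U : Set (GalK K))) ∧ (nv K v).Prime}, D,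
      ⟨c, hc, hc'⟩, fun ε hε => ?_⟩
    obtain ⟨M, hM0, hM1⟩ := hcn ε hε
    exact ⟨M, hM0, fun v hv => hM1 v fun a => (hv a).1⟩
  tfae_have 2 ↔ 3 := hidx.symm.trans (hM.out 1 2)
  tfae_have 3 ↔ 4 := hM.out 2 3
  tfae_finish

end Pool.Agent.GR
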