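import Pool.Agent.helper1.CD.Defs
import Pool.Agent.helper67.RG.RDefs

/-!
# Definitions for the final statements over the absolute Galois group (MP_2e0e07_nt), without measures
-/

set_option autoImplicit false

namespace Pool.Agent.GR

open Matrix Polynomial Pool.Agent.GO Pool.Agent.AR Pool.Agent.RG Pool.Agent.GK Pool.Agent.CD

/-- A good set `O` of places in weight `s + 1`: for every open normal subgroup `U` of the absolute
Galois group (every finite Galois extension of `K`) the places `v` in `O` with all Frobenius elements in
`U` (which split completely) have positive upper density; for `v ∈ O` the polynomial `Q v` is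
`X² - a_v X + ε_v q_v ^ s` with `a_v` integral, `ε_v` a root of unity, and either `a_v` is prime to
`q_v` in the integers of `E`, or `s = 1`, `q_v ≥ 5` and `q_v` generates a radical ideal of the
integers of `E`; the `P i v` with `n i ≥ 2` have integral coefficients and roots of absolute value
`q_v ^ (w i / 2)`, `w i ≤ s`. -/
structure IsGoodSetK (K : Type) [Field K] [NumberField K] {E : Type*} [Field E] {r : ℕ}
    (n : Fin r → ℕ) (P : Fin r → Pl K → E[X]) (Q : Pl K → E[X]) (s : ℕ) (w : Fin r → ℕ)
    (O : Set (Pl K)) : Prop where
  pos : 1 ≤ s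
  wt : ∀ i, 2 ≤ n i → w i ≤ s
  dense : ∀ U : Subgroup (GalK K), IsOpen (U : Set (GalK K)) → U.Normal →
    PosUD K {v | v ∈ O ∧ frob K v ⊆ U}
  good : ∀ v ∈ O, IsGood (nv K v) s (Q v)
  weil : ∀ v ∈ O, ∀ i, 2 ≤ n i → IsWeil (nv K v) (w i) (P i v)

end Pool.Agent.GR
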