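import Pool.Agent.helper1.GR.Defs
import Pool.Agent.helper44.AX.Defs

/-!
# Definitions for the congruence criterion over the absolute Galois group (MP_2e0e07_nt)
-/

set_option autoImplicit false

namespace Pool.Agent.GR

open Matrix Polynomial Pool.Agent.GK Pool.Agent.CD

/-- On a set `S` of places of positive upper density the number `t_v = a_v ^ 2 / d_v`, as an element
of the `p`-adic field `F`, is determined up to finitely many values by congruences between the
polynomials `P i v`: for every `ε > 0` there is a modulus `M` such that among any `D + 1` places of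
`S` with the same `P i v` modulo `M`, two have values of `t_v` at distance at most `ε`. -/
def DeterminedK (K : Type) [Field K] [NumberField K] {E F : Type*} [Field E] [NormedField F] {r : ℕ}
    (P : Fin r → Pl K → ℤ[X]) (Q : Pl K → E[X]) (ι : E →+* F) : Prop :=
  ∃ (S : Set (Pl K)) (D : ℕ), PosUD K S ∧ ∀ ε : ℝ, 0 < ε → ∃ M : ℕ, 0 < M ∧
    ∀ v : Fin (D + 1) → Pl K, (∀ a, v a ∈ S) →
      (∀ a b i k, (M : ℤ) ∣ (P i (v a)).coeff k - (P i (v b)).coeff k) →
      ∃ a b, a ≠ b ∧ ‖ι (Pool.Agent.AX.tv Q (v a)) - ι (Pool.Agent.AX.tv Q (v b))‖ ≤ ε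

/-- The field cut out by the `V q i` for all primes `q` and all `i`. -/
noncomputable def fieldAll {K : Type} [Field K] {r : ℕ} {n : Fin r → ℕ}
    (V : (q : ℕ) → [Fact q.Prime] → (i : Fin r) →
      Gal(AlgebraicClosure K/K) →* Matrix (Fin (n i)) (Fin (n i)) ℤ_[q]) :
    IntermediateField K (AlgebraicClosure K) :=
  IntermediateField.fixedField (Pool.Agent.AX.kerAll V)

end Pool.Agent.GR
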